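import Pool.Agent.H13.EM

namespace Pool.Agent.Results.MP_f12eed_co.Counter
open Pool.Agent.H13.EM SimpleGraph

/-- `f` is `G`-blocking on `H`: no copy of `G` in `H` (an injective map `φ` sending edges to
edges) has `f e` disjoint from the vertex set of the copy for all edges `e` of the copy. -/
def Blocking {k n : ℕ} (G : SimpleGraph (Fin k)) (H : SimpleGraph (Fin n))
    (f : Sym2 (Fin n) → Sym2 (Fin n)) : Prop :=
  ¬ ∃ φ : Fin k → Fin n, Function.Injective φ ∧ (∀ u v, G.Adj u v → H.Adj (φ u) (φ v)) ∧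
    ∀ u v, G.Adj u v → ∀ w, φ w ∉ f s(φ u, φ v)

/-- `s(n,G)` -/
noncomputable def sNum {k : ℕ} (n : ℕ) (G : SimpleGraph (Fin k)) : ℕ :=
  sSup {m | ∃ (H : SimpleGraph (Fin n)) (f : Sym2 (Fin n) → Sym2 (Fin n)),
    H.edgeSet.ncard = m ∧ (∀ e ∈ H.edgeSet, f e ∈ H.edgeSet ∧ ∀ x ∈ e, x ∉ f e) ∧ Blocking G H f}

/-- `p(n,G)` -/
noncomputable def pNum {k : ℕ} (n : ℕ) (G : SimpleGraph (Fin k)) : ℕ :=
  sSup {m | m ≤ n.choose 2 ∧ ∃ f : Sym2 (Fin n) → Sym2 (Fin n),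
    (∀ e ∈ (⊤ : SimpleGraph (Fin n)).edgeSet, f e ∈ (⊤ : SimpleGraph (Fin n)).edgeSet) ∧
    m ≤ {e ∈ (⊤ : SimpleGraph (Fin n)).edgeSet | ∀ x ∈ e, x ∉ f e}.ncard ∧ Blocking G ⊤ f}

lemma mem_all : ∀ x y : Fin 8, x < y → (x.val, y.val, 8 * x.val + y.val) ∈ allP := by
  decide +kernel

lemma lt_all : ∀ c ∈ allP, c.1 < 8 ∧ c.2.1 < 8 := by decide +kernel

lemma path_adj : ∀ u v : Fin 3, (pathGraph 3).Adj u v ↔
    (u = 0 ∧ v = 1) ∨ (u = 1 ∧ v = 0) ∨ (u = 1 ∧ v = 2) ∨ (u = 2 ∧ v = 1) := by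
  intro u v
  rw [pathGraph_adj]
  revert u v
  decide

section
variable {H : SimpleGraph (Fin 8)} {f : Sym2 (Fin 8) → Sym2 (Fin 8)}

lemma blocked (h1 : ∀ e ∈ H.edgeSet, f e ∈ H.edgeSet ∧ ∀ x ∈ e, x ∉ f e)
    (h2 : Blocking (pathGraph 3) H f) {s t w : Fin 8} (ht : H.Adj s t) (hw : H.Adj s w)
    (h : t ≠ w) : w ∈ f s(s, t) ∨ t ∈ f s(s, w) := by
  by_contra hc
  push Not at hc
  have a1 := (h1 s(s, t) ht).2
  have a2 := (h1 s(s, w) hw).2
  have b1 : ∀ i : Fin 3, ![t, s, w] i ∉ f s(s, t) := by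
    intro i; fin_cases i
    · exact a1 t (by simp)
    · exact a1 s (by simp)
    · exact hc.1
  have b2 : ∀ i : Fin 3, ![t, s, w] i ∉ f s(s, w) := by
    intro i; fin_cases i
    · exact hc.2
    · exact a2 s (by simp)
    · exact a2 w (by simp)
  refine h2 ⟨![t, s, w], ?_, ?_, ?_⟩
  · have := ht.ne; have := hw.ne
    intro i j hij
    fin_cases i <;> fin_cases j <;> simp_all
  · intro u v huv
    rcases (path_adj u v).1 huv with ⟨rfl, rfl⟩ | ⟨rfl, rfl⟩ | ⟨rfl, rfl⟩ | ⟨rfl, rfl⟩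
    · exact ht.symm
    · exact ht
    · exact hw
    · exact hw.symm
  · intro u v huv i
    rcases (path_adj u v).1 huv with ⟨rfl, rfl⟩ | ⟨rfl, rfl⟩ | ⟨rfl, rfl⟩ | ⟨rfl, rfl⟩
    · rw [Sym2.eq_swap]; exact b1 i
    · exact b1 i
    · exact b2 i
    · rw [Sym2.eq_swap]; exact b2 i

lemma two {e : Sym2 (Fin 8)} {x y : Fin 8} (hx : x ∈ e) (hy : y ∈ e) (h : x ≠ y) :
    e = s(x, y) := (Sym2.mem_and_mem_iff h).1 ⟨hx, hy⟩

lemma key (h1 : ∀ e ∈ H.edgeSet, f e ∈ H.edgeSet ∧ ∀ x ∈ e, x ∉ f e)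
    (h2 : Blocking (pathGraph 3) H f) (hm : 14 ≤ H.edgeSet.ncard) {b a1 a2 a3 a4 : Fin 8}
    (e1 : H.Adj b a1) (e2 : H.Adj b a2) (e3 : H.Adj b a3) (e4 : H.Adj b a4)
    (n12 : a1 ≠ a2) (n13 : a1 ≠ a3) (n14 : a1 ≠ a4) (n23 : a2 ≠ a3) (n24 : a2 ≠ a4)
    (n34 : a3 ≠ a4) (r12 : a2 ∈ f s(b, a1)) (r13 : a3 ∈ f s(b, a1)) (r23 : a3 ∈ f s(b, a2))
    (r24 : a4 ∈ f s(b, a2)) : False := by
  classical
  obtain ⟨σ, hσ⟩ := Equiv.Perm.exists_extending_pair (α := Fin 5) (β := Fin 8)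
    ![0, 1, 2, 3, 4] ![b, a1, a2, a3, a4] (by decide) (by
      have := e1.ne; have := e2.ne; have := e3.ne; have := e4.ne
      intro i j hij
      fin_cases i <;> fin_cases j <;> simp_all)
  have s0 : σ 0 = b := hσ 0
  have s1 : σ 1 = a1 := hσ 1
  have s2 : σ 2 = a2 := hσ 2
  have s3 : σ 3 = a3 := hσ 3
  have s4 : σ 4 = a4 := hσ 4
  set τ : ℕ → Fin 8 := fun a => σ (Fin.ofNat 8 a) with hτ
  have τv : ∀ x : Fin 8, τ x.val = σ x := fun x => by simp [hτ]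
  have τi : ∀ x y : ℕ, x < 8 → y < 8 → τ x = τ y → x = y := by
    intro x y hx hy h
    have := congrArg Fin.val (σ.injective h)
    simpa [Fin.ofNat, Nat.mod_eq_of_lt hx, Nat.mod_eq_of_lt hy] using this
  have spec : ∀ (e : Sym2 (Fin 8)) (x y : ℕ), x < 8 → y < 8 → e = s(τ x, τ y) →
      ∀ z, (z < 8 ∧ τ z ∈ e) ↔ (z = x ∨ z = y) := by
    intro e x y hx hy he z
    rw [he, Sym2.mem_iff]
    constructor
    · rintro ⟨hz, h | h⟩
      · exact Or.inl (τi _ _ hz hx h)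
      · exact Or.inr (τi _ _ hz hy h)
    · rintro (rfl | rfl)
      · exact ⟨hx, Or.inl rfl⟩
      · exact ⟨hy, Or.inr rfl⟩
  have rep : ∀ e ∈ H.edgeSet, ∃ d ∈ allP, e = s(τ d.1, τ d.2.1) := by
    intro e he
    induction e using Sym2.ind with
    | _ u v =>
      have hne : σ.symm u ≠ σ.symm v := fun h => (H.ne_of_adj he) (σ.symm.injective h)
      rcases lt_or_gt_of_ne hne with h | h
      · exact ⟨_, mem_all _ _ h, by simp [τv]⟩
      · exact ⟨_, mem_all _ _ h, by simp [τv]⟩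
  have S : Sol (fun a b => a < 8 ∧ b < 8 ∧ H.Adj (τ a) (τ b))
      (fun a b z => z < 8 ∧ τ z ∈ f s(τ a, τ b)) := by
    refine ⟨fun a b h => ⟨h.2.1, h.1, h.2.2.symm⟩, fun a b z => by rw [Sym2.eq_swap], ?_, ?_⟩
    · rintro a b ⟨ha, hb, hab⟩
      obtain ⟨h3, h4⟩ := h1 s(τ a, τ b) hab
      obtain ⟨d, hd, he⟩ := rep _ h3
      obtain ⟨d1, d2⟩ := lt_all d hd
      have ma := h4 (τ a) (by simp)
      have mb := h4 (τ b) (by simp)
      rw [he] at h3 ma mb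
      refine ⟨d, hd, ⟨d1, d2, h3⟩, ?_, ?_, ?_, ?_, spec _ _ _ d1 d2 he⟩
      · intro h; exact ma (by rw [← h]; simp)
      · intro h; exact mb (by rw [← h]; simp)
      · intro h; exact ma (by rw [← h]; simp)
      · intro h; exact mb (by rw [← h]; simp)
    · rintro s t w ⟨hs, ht, hst⟩ ⟨_, hw, hsw⟩ htw
      rcases blocked h1 h2 hst hsw (fun h => htw (τi _ _ ht hw h)) with h | h
      · exact Or.inl ⟨hw, h⟩
      · exact Or.inr ⟨ht, h⟩
  have t0 : τ 0 = b := s0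
  have t1 : τ 1 = a1 := s1
  have t2 : τ 2 = a2 := s2
  have t3 : τ 3 = a3 := s3
  have t4 : τ 4 = a4 := s4
  have f1 := two r12 r13 n23
  have f2 := two r23 r24 n34
  have g1 := (h1 s(b, a1) e1).1
  have g2 := (h1 s(b, a2) e2).1
  rw [f1] at g1
  rw [f2] at g2
  refine sound S _ _ _ _ _ _ _ ?_ ?_ (by simp) (fun c h => h) ?_ run
  · intro l hl
    simp only [List.mem_cons, List.not_mem_nil, or_false] at hl
    rcases hl with rfl | rfl
    · refine ⟨⟨by decide, by decide, by show H.Adj (τ 0) (τ 2); rw [t0, t2]; exact e2⟩, spec _ _ _ (by decide) (by decide) ?_⟩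
      show f s(τ 0, τ 2) = s(τ 3, τ 4)
      rw [t0, t2, t3, t4, f2]
    · refine ⟨⟨by decide, by decide, by show H.Adj (τ 0) (τ 1); rw [t0, t1]; exact e1⟩, spec _ _ _ (by decide) (by decide) ?_⟩
      show f s(τ 0, τ 1) = s(τ 2, τ 3)
      rw [t0, t1, t2, t3, f1]
  · intro l hl
    simp only [List.mem_cons, List.not_mem_nil, or_false] at hl
    rcases hl with rfl | rfl | rfl | rfl
    · exact ⟨by decide, by decide, by show H.Adj (τ 0) (τ 4); rw [t0, t4]; exact e4⟩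
    · exact ⟨by decide, by decide, by show H.Adj (τ 3) (τ 4); rw [t3, t4]; exact g2⟩
    · exact ⟨by decide, by decide, by show H.Adj (τ 0) (τ 3); rw [t0, t3]; exact e3⟩
    · exact ⟨by decide, by decide, by show H.Adj (τ 2) (τ 3); rw [t2, t3]; exact g1⟩
  · set P : ℕ × ℕ × ℕ → Bool := fun c => decide (c.1 < 8 ∧ c.2.1 < 8 ∧ H.Adj (τ c.1) (τ c.2.1))
      with hP
    have hlen := List.length_eq_countP_add_countP P (l := allP)
    have h28 : allP.length = 28 := rfl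
    have hle : H.edgeSet.ncard ≤ allP.countP P := by
      rw [List.countP_eq_length_filter, ← List.length_map (f := fun d => s(τ d.1, τ d.2.1))]
      refine le_trans ?_ (List.toFinset_card_le _)
      rw [← Set.ncard_coe_finset]
      refine Set.ncard_le_ncard ?_ (Finset.finite_toSet _)
      intro e he
      obtain ⟨d, hd, rfl⟩ := rep e he
      obtain ⟨d1, d2⟩ := lt_all d hd
      simp only [List.coe_toFinset, Set.mem_ofPred_eq, List.mem_map, List.mem_filter]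
      exact ⟨d, ⟨hd, decide_eq_true ⟨d1, d2, he⟩⟩, rfl⟩
    have : allP.countP (fun a => decide ¬ P a = true) ≤ 14 := by omega
    refine le_trans (le_of_eq ?_) this
    refine List.countP_congr fun c _ => ?_
    simp only [hP, decide_eq_true_eq]

lemma upper (h1 : ∀ e ∈ H.edgeSet, f e ∈ H.edgeSet ∧ ∀ x ∈ e, x ∉ f e)
    (h2 : Blocking (pathGraph 3) H f) : H.edgeSet.ncard ≤ 13 := by
  classical
  by_contra hc
  have hm : 14 ≤ H.edgeSet.ncard := by omega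
  have hs := H.sum_degrees_eq_twice_card_edges
  have hcard : H.edgeFinset.card = H.edgeSet.ncard := by
    rw [← Set.ncard_coe_finset, coe_edgeFinset]
  obtain ⟨b, hb⟩ : ∃ b, 3 < H.degree b := by
    by_contra hn
    push Not at hn
    have : ∑ v, H.degree v ≤ ∑ _v : Fin 8, 3 := Finset.sum_le_sum fun v _ => hn v
    simp at this
    omega
  obtain ⟨a1, a2, a3, a4, e1, e2, e3, e4, n12, n13, n14, n23, n24, n34⟩ :=
    Finset.three_lt_card_iff.1 hb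
  rw [mem_neighborFinset] at e1 e2 e3 e4
  have three : ∀ {e : Sym2 (Fin 8)} {x y z : Fin 8}, x ≠ y → x ≠ z → y ≠ z → x ∈ e → y ∈ e →
      z ∈ e → False := by
    intro e x y z h1 h2 h3 hx hy hz
    rw [two hx hy h1, Sym2.mem_iff] at hz
    rcases hz with h | h
    · exact h2 h.symm
    · exact h3 h.symm
  have n21 := n12.symm
  have n31 := n13.symm
  have n41 := n14.symm
  have n32 := n23.symm
  have n42 := n24.symm
  have n43 := n34.symm
  rcases blocked h1 h2 e1 e2 n12 with r12 | r21 <;> rcases blocked h1 h2 e1 e3 n13 with r13 | r31 <;>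
  rcases blocked h1 h2 e1 e4 n14 with r14 | r41 <;> rcases blocked h1 h2 e2 e3 n23 with r23 | r32 <;>
  rcases blocked h1 h2 e2 e4 n24 with r24 | r42 <;> rcases blocked h1 h2 e3 e4 n34 with r34 | r43 <;>
  first
    | exact three n23 n24 n34 r12 r13 r14
    | exact three n13 n14 n34 r21 r23 r24
    | exact three n12 n14 n24 r31 r32 r34
    | exact three n12 n13 n23 r41 r42 r43
    | exact key h1 h2 hm e1 e2 e3 e4 n12 n13 n14 n23 n24 n34 r12 r13 r23 r24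
    | exact key h1 h2 hm e1 e2 e4 e3 n12 n14 n13 n24 n23 n43 r12 r14 r24 r23
    | exact key h1 h2 hm e1 e3 e2 e4 n13 n12 n14 n32 n34 n24 r13 r12 r32 r34
    | exact key h1 h2 hm e1 e3 e4 e2 n13 n14 n12 n34 n32 n42 r13 r14 r34 r32
    | exact key h1 h2 hm e1 e4 e2 e3 n14 n12 n13 n42 n43 n23 r14 r12 r42 r43
    | exact key h1 h2 hm e1 e4 e3 e2 n14 n13 n12 n43 n42 n32 r14 r13 r43 r42
    | exact key h1 h2 hm e2 e1 e3 e4 n21 n23 n24 n13 n14 n34 r21 r23 r13 r14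
    | exact key h1 h2 hm e2 e1 e4 e3 n21 n24 n23 n14 n13 n43 r21 r24 r14 r13
    | exact key h1 h2 hm e2 e3 e1 e4 n23 n21 n24 n31 n34 n14 r23 r21 r31 r34
    | exact key h1 h2 hm e2 e3 e4 e1 n23 n24 n21 n34 n31 n41 r23 r24 r34 r31
    | exact key h1 h2 hm e2 e4 e1 e3 n24 n21 n23 n41 n43 n13 r24 r21 r41 r43
    | exact key h1 h2 hm e2 e4 e3 e1 n24 n23 n21 n43 n41 n31 r24 r23 r43 r41
    | exact key h1 h2 hm e3 e1 e2 e4 n31 n32 n34 n12 n14 n24 r31 r32 r12 r14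
    | exact key h1 h2 hm e3 e1 e4 e2 n31 n34 n32 n14 n12 n42 r31 r34 r14 r12
    | exact key h1 h2 hm e3 e2 e1 e4 n32 n31 n34 n21 n24 n14 r32 r31 r21 r24
    | exact key h1 h2 hm e3 e2 e4 e1 n32 n34 n31 n24 n21 n41 r32 r34 r24 r21
    | exact key h1 h2 hm e3 e4 e1 e2 n34 n31 n32 n41 n42 n12 r34 r31 r41 r42
    | exact key h1 h2 hm e3 e4 e2 e1 n34 n32 n31 n42 n41 n21 r34 r32 r42 r41
    | exact key h1 h2 hm e4 e1 e2 e3 n41 n42 n43 n12 n13 n23 r41 r42 r12 r13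
    | exact key h1 h2 hm e4 e1 e3 e2 n41 n43 n42 n13 n12 n32 r41 r43 r13 r12
    | exact key h1 h2 hm e4 e2 e1 e3 n42 n41 n43 n21 n23 n13 r42 r41 r21 r23
    | exact key h1 h2 hm e4 e2 e3 e1 n42 n43 n41 n23 n21 n31 r42 r43 r23 r21
    | exact key h1 h2 hm e4 e3 e1 e2 n43 n41 n42 n31 n32 n12 r43 r41 r31 r32
    | exact key h1 h2 hm e4 e3 e2 e1 n43 n42 n41 n32 n31 n21 r43 r42 r32 r31
end

def g (a b : Fin 8) : Fin 8 × Fin 8 := ![
  ![(0,0), (2,3), (3,4), (0,3), (1,5), (1,2), (0,6), (0,7)],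
  ![(2,3), (1,1), (1,2), (2,4), (0,5), (0,3), (1,6), (1,7)],
  ![(3,4), (2,1), (2,2), (6,7), (2,4), (2,5), (0,3), (0,6)],
  ![(3,0), (2,4), (6,7), (3,3), (3,4), (3,5), (1,7), (1,2)],
  ![(1,5), (0,5), (4,2), (4,3), (4,4), (0,1), (4,6), (4,7)],
  ![(1,2), (0,3), (5,2), (5,3), (0,1), (5,5), (5,6), (5,7)],
  ![(6,0), (6,1), (0,3), (1,7), (6,4), (6,5), (6,6), (2,3)],
  ![(7,0), (7,1), (0,6), (1,2), (7,4), (7,5), (2,3), (7,7)]] a b

def f0 : Sym2 (Fin 8) → Sym2 (Fin 8) :=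
  Sym2.lift ⟨fun a b => s((g a b).1, (g a b).2), by decide +kernel⟩

def moved : Finset (Sym2 (Fin 8)) := {s(0,1), s(0,2), s(1,3), s(2,3), s(0,4), s(1,4), s(0,5), s(1,5), s(4,5), s(2,6), s(3,6), s(2,7), s(3,7), s(6,7)}

lemma lower : 14 ≤ pNum 8 (pathGraph 3) := by
  refine le_csSup ⟨Nat.choose 8 2, fun m hm => hm.1⟩ ⟨by decide, f0, ?_, ?_, ?_⟩
  · intro e he
    induction e using Sym2.ind with
    | _ u v =>
      have : ∀ u v : Fin 8, u ≠ v → (g u v).1 ≠ (g u v).2 := by decide +kernel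
      exact this u v he
  · have hc : moved.card = 14 := by decide +kernel
    rw [← hc, ← Set.ncard_coe_finset]
    refine Set.ncard_le_ncard ?_ (Set.toFinite _)
    intro e he
    induction e using Sym2.ind with
    | _ u v =>
      have : ∀ u v : Fin 8, s(u, v) ∈ moved → u ≠ v ∧ ∀ x ∈ s(u, v), x ∉ f0 s(u, v) := by
        decide +kernel
      exact this u v he
  · rintro ⟨φ, hi, _, h⟩
    have : ∀ a b c : Fin 8, a ≠ b → a ≠ c → b ≠ c → (a ∈ f0 s(a, b) ∨ b ∈ f0 s(a, b) ∨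
        c ∈ f0 s(a, b) ∨ a ∈ f0 s(b, c) ∨ b ∈ f0 s(b, c) ∨ c ∈ f0 s(b, c)) := by decide +kernel
    have h01 := h 0 1 ((path_adj _ _).2 (by simp))
    have h12 := h 1 2 ((path_adj _ _).2 (by simp))
    rcases this (φ 0) (φ 1) (φ 2) (hi.ne (by decide)) (hi.ne (by decide)) (hi.ne (by decide))
      with h | h | h | h | h | h
    exacts [h01 _ h, h01 _ h, h01 _ h, h12 _ h, h12 _ h, h12 _ h]

theorem result : sNum 8 (pathGraph 3) ≤ 13 ∧ 14 ≤ pNum 8 (pathGraph 3) ∧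
    ¬ ∀ (k : ℕ) (G : SimpleGraph (Fin k)), G ≠ ⊥ → ∀ n, 4 ≤ n → pNum n G = sNum n G := by
  have hs : sNum 8 (pathGraph 3) ≤ 13 := by
    refine csSup_le' ?_
    rintro m ⟨H, f, rfl, h1, h2⟩
    exact upper h1 h2
  refine ⟨hs, lower, fun h => ?_⟩
  have := h 3 (pathGraph 3) (fun hb => by
    have : (pathGraph 3).Adj 0 1 := (path_adj _ _).2 (by simp)
    rw [hb] at this
    exact this) 8 (by omega)
  have := lower
  omega

end Pool.Agent.Results.MP_f12eed_co.Counter
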